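import Pool.Agent.BEL.StmtsP
import Pool.Agent.Helper91_BE01.EMB

/-!
# Squad BEL, module AVO: averages
-/

namespace Pool.Agent.BEL.H90

open Set Filter Topology MeasureTheory
open scoped InnerProductSpace ENNReal
open Pool.Agent.BE01

noncomputable section

variable {d : ℕ}

/-- the volume of the ball of radius `r` -/
def vb (d : ℕ) (r : ℝ) : ℝ := (volume (Metric.ball (0 : En d) r)).toReal

lemma vb_eq (hd : 0 < d) {r : ℝ} (hr : 0 < r) : vb d r = r ^ d * vb d 1 := by
  have : Nonempty (Fin d) := ⟨⟨0, hd⟩⟩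
  unfold vb
  rw [Measure.addHaar_ball _ _ hr.le, ENNReal.toReal_mul, ENNReal.toReal_ofReal (by positivity)]
  simp

lemma vb_pos {r : ℝ} (hr : 0 < r) : 0 < vb d r := by
  unfold vb
  refine ENNReal.toReal_pos ?_ ?_
  · exact (Metric.isOpen_ball.measure_pos _ (Metric.nonempty_ball.2 hr)).ne'
  · exact measure_ball_lt_top.ne

lemma vol_ball (x : En d) (r : ℝ) : volume (Metric.ball x r) = ENNReal.ofReal (vb d r) := by
  unfold vb
  rw [ENNReal.ofReal_toReal measure_ball_lt_top.ne]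
  exact Measure.addHaar_ball_center _ _ _

/-- the constant -/
def cst (d : ℕ) : ℝ := (vb d 1) ^ (-(1 / 2 : ℝ))

lemma cst_pos : 0 < cst d := Real.rpow_pos_of_pos (vb_pos one_pos) _

lemma vb_rpow (hd : 0 < d) {r : ℝ} (hr : 0 < r) :
    (vb d r) ^ (-(1 / 2 : ℝ)) = cst d * r ^ (-((d : ℝ) / 2)) := by
  rw [vb_eq hd hr, Real.mul_rpow (by positivity) (vb_pos one_pos).le, mul_comm]
  unfold cst
  congr 1
  rw [← Real.rpow_natCast, ← Real.rpow_mul hr.le]
  congr 1
  ring

section avg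

variable (μ : Measure (En d)) (r : ℝ)

/-- the average of `f` -/
def av (f : En d → ℝ) (x : En d) : ℝ := (vb d r)⁻¹ * ∫ y in Metric.ball x r, f y ∂μ

lemma av_congr {f g : En d → ℝ} (h : f =ᵐ[μ] g) (x : En d) : av μ r f x = av μ r g x := by
  unfold av
  congr 1
  exact integral_congr_ae (ae_restrict_of_ae h)

lemma av_meas [SFinite μ] {f : En d → ℝ} (hf : StronglyMeasurable f) :
    StronglyMeasurable (av μ r f) := by
  have h1 : MeasurableSet {p : En d × En d | dist p.2 p.1 < r} :=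
    (isOpen_lt (by fun_prop) continuous_const).measurableSet
  have h2 : StronglyMeasurable
      ({p : En d × En d | dist p.2 p.1 < r}.indicator (fun p => f p.2)) :=
    (hf.comp_measurable measurable_snd).indicator h1
  have h3 := h2.integral_prod_right' (ν := μ)
  have h4 : (fun x => ∫ y, ({p : En d × En d | dist p.2 p.1 < r}.indicator (fun p => f p.2))
      (x, y) ∂μ) = fun x => ∫ y in Metric.ball x r, f y ∂μ := by
    funext x
    rw [← integral_indicator measurableSet_ball]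
    congr 1
  rw [h4] at h3
  exact h3.const_mul _

end avg

/-- the bound for the averages -/
lemma av_le {Ω : Set (En d)} {r : ℝ} (hr : 0 < r) (f : Lp ℝ 2 (mu Ω)) (x : En d) :
    |av (mu Ω) r f x| ≤ (vb d r) ^ (-(1 / 2 : ℝ)) * ‖f‖ := by
  have hv := vb_pos (d := d) hr
  have hm : mu Ω (Metric.ball x r) ≤ ENNReal.ofReal (vb d r) := by
    rw [← vol_ball x r]
    exact Measure.restrict_le_self _
  have hm2 : mu Ω (Metric.ball x r) ≠ ⊤ := (hm.trans_lt ENNReal.ofReal_lt_top).ne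
  have h1 := L2.inner_indicatorConstLp_one (𝕜 := ℝ) measurableSet_ball hm2 f
  have h2 := abs_real_inner_le_norm (indicatorConstLp 2 measurableSet_ball hm2 (1 : ℝ)) f
  rw [h1, norm_indicatorConstLp (by norm_num) (by norm_num), norm_one, one_mul] at h2
  have h3 : (mu Ω).real (Metric.ball x r) ≤ vb d r := by
    unfold Measure.real
    exact ENNReal.toReal_le_of_le_ofReal hv.le hm
  have h4 : (mu Ω).real (Metric.ball x r) ^ (1 / (2 : ℝ≥0∞).toReal) ≤ (vb d r) ^ (1 / 2 : ℝ) := by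
    have e : (1 / (2 : ℝ≥0∞).toReal) = (1 / 2 : ℝ) := by simp
    rw [e]
    exact Real.rpow_le_rpow measureReal_nonneg h3 (by norm_num)
  unfold av
  rw [abs_mul, abs_of_pos (inv_pos.2 hv)]
  have h5 : (vb d r) ^ (-(1 / 2 : ℝ)) = (vb d r)⁻¹ * (vb d r) ^ (1 / 2 : ℝ) := by
    rw [← Real.rpow_neg_one, ← Real.rpow_add hv]
    norm_num
  rw [h5, mul_assoc]
  refine mul_le_mul_of_nonneg_left (h2.trans ?_) (inv_pos.2 hv).le
  exact mul_le_mul_of_nonneg_right h4 (norm_nonneg _)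

lemma lp_int {μ : Measure (En d)} [IsFiniteMeasure μ] (f : Lp ℝ 2 μ) : Integrable f μ :=
  (Lp.memLp f).integrable (by norm_num)

lemma av_memLp {Ω : Set (En d)} [IsFiniteMeasure (mu Ω)] {r : ℝ} (hr : 0 < r)
    (f : Lp ℝ 2 (mu Ω)) : MemLp (av (mu Ω) r f) 2 (mu Ω) := by
  refine MemLp.of_bound ((av_meas _ _ (Lp.stronglyMeasurable f)).aestronglyMeasurable)
    ((vb d r) ^ (-(1 / 2 : ℝ)) * ‖f‖) ?_
  exact Eventually.of_forall fun x => av_le hr f x

/-- the operator -/
def AA (Ω : Set (En d)) [IsFiniteMeasure (mu Ω)] {r : ℝ} (hr : 0 < r) :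
    Lp ℝ 2 (mu Ω) →L[ℝ] Lp ℝ 2 (mu Ω) :=
  LinearMap.mkContinuous
    { toFun := fun f => (av_memLp hr f).toLp _
      map_add' := by
        intro f g
        rw [← MemLp.toLp_add]
        refine MemLp.toLp_congr _ _ (Eventually.of_forall fun x => ?_)
        rw [av_congr _ _ (Lp.coeFn_add f g) x]
        show _ = av (mu Ω) r f x + av (mu Ω) r g x
        unfold av
        rw [← mul_add]
        congr 1
        exact integral_add (lp_int f).integrableOn (lp_int g).integrableOn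
      map_smul' := by
        intro c f
        rw [RingHom.id_apply, ← MemLp.toLp_const_smul]
        refine MemLp.toLp_congr _ _ (Eventually.of_forall fun x => ?_)
        rw [av_congr _ _ (Lp.coeFn_smul c f) x]
        show _ = c * av (mu Ω) r f x
        unfold av
        have : ∫ y in Metric.ball x r, (c • (f : En d → ℝ)) y ∂(mu Ω) =
            c * ∫ y in Metric.ball x r, f y ∂(mu Ω) := by
          rw [← integral_const_mul]
          rfl
        rw [this]
        ring }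
    ((measureUnivNNReal (mu Ω) : ℝ) ^ ((2 : ℝ≥0∞).toReal)⁻¹ * (vb d r) ^ (-(1 / 2 : ℝ))) (by
      intro f
      rw [mul_assoc]
      refine Lp.norm_le_of_ae_bound (by
        have := vb_pos (d := d) hr
        positivity) ?_
      filter_upwards [MemLp.coeFn_toLp (av_memLp hr f)] with x hx
      show ‖((av_memLp hr f).toLp _ : En d → ℝ) x‖ ≤ _
      rw [hx]
      exact av_le hr f x)

lemma AA_ae (Ω : Set (En d)) [IsFiniteMeasure (mu Ω)] {r : ℝ} (hr : 0 < r) (f : Lp ℝ 2 (mu Ω)) :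
    AA Ω hr f =ᵐ[mu Ω] av (mu Ω) r f := MemLp.coeFn_toLp (av_memLp hr f)

lemma inner_eq {μ : Measure (En d)} (f g : Lp ℝ 2 μ) : ⟪f, g⟫_ℝ = ∫ x, f x * g x ∂μ := by
  rw [L2.inner_def]
  refine integral_congr_ae (Eventually.of_forall fun x => ?_)
  show g x * f x = f x * g x
  exact mul_comm _ _

/-- symmetry -/
lemma AA_symm (Ω : Set (En d)) [IsFiniteMeasure (mu Ω)] {r : ℝ} (hr : 0 < r)
    (f g : Lp ℝ 2 (mu Ω)) : ⟪AA Ω hr f, g⟫_ℝ = ⟪f, AA Ω hr g⟫_ℝ := by
  have key : ∀ f g : Lp ℝ 2 (mu Ω), ⟪AA Ω hr f, g⟫_ℝ = (vb d r)⁻¹ *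
      ∫ x, ∫ y, ({p : En d × En d | dist p.2 p.1 < r}.indicator (fun p => f p.2 * g p.1))
        (x, y) ∂(mu Ω) ∂(mu Ω) := by
    intro f g
    rw [inner_eq, ← integral_const_mul]
    refine integral_congr_ae ?_
    filter_upwards [AA_ae Ω hr f] with x hx
    rw [hx]
    unfold av
    rw [mul_assoc]
    congr 1
    rw [← integral_mul_const, ← integral_indicator measurableSet_ball]
    rfl
  have h1 : MeasurableSet {p : En d × En d | dist p.2 p.1 < r} :=
    (isOpen_lt (by fun_prop) continuous_const).measurableSet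
  have hI : Integrable ({p : En d × En d | dist p.2 p.1 < r}.indicator
      (fun p => f p.2 * g p.1)) ((mu Ω).prod (mu Ω)) := by
    refine Integrable.indicator ?_ h1
    have h2 := (lp_int g).mul_prod (lp_int f)
    refine h2.congr (Eventually.of_forall fun p => ?_)
    exact mul_comm _ _
  rw [key f g, real_inner_comm, key g f]
  congr 1
  rw [integral_integral_swap (f := fun x y => ({p : En d × En d | dist p.2 p.1 < r}.indicator
      (fun p => f p.2 * g p.1)) (x, y)) hI]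
  refine integral_congr_ae (Eventually.of_forall fun x => ?_)
  refine integral_congr_ae (Eventually.of_forall fun y => ?_)
  show ({p : En d × En d | dist p.2 p.1 < r}.indicator (fun p => f p.2 * g p.1)) (y, x) =
    ({p : En d × En d | dist p.2 p.1 < r}.indicator (fun p => g p.2 * f p.1)) (x, y)
  by_cases h : dist x y < r
  · rw [indicator_of_mem (show (y, x) ∈ {p : En d × En d | dist p.2 p.1 < r} from h),
      indicator_of_mem (show (x, y) ∈ {p : En d × En d | dist p.2 p.1 < r} by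
        show dist y x < r
        rw [dist_comm]; exact h)]
    exact mul_comm _ _
  · rw [indicator_of_notMem (show (y, x) ∉ {p : En d × En d | dist p.2 p.1 < r} from h),
      indicator_of_notMem (show (x, y) ∉ {p : En d × En d | dist p.2 p.1 < r} by
        intro h2
        apply h
        have h3 : dist y x < r := h2
        rw [dist_comm]; exact h3)]

lemma AA_bd (Ω : Set (En d)) [IsFiniteMeasure (mu Ω)] {r : ℝ} (hr : 0 < r) (f : Lp ℝ 2 (mu Ω)) :
    ∀ᵐ x ∂(mu Ω), |AA Ω hr f x| ≤ (vb d r) ^ (-(1 / 2 : ℝ)) * ‖f‖ := by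
  filter_upwards [AA_ae Ω hr f] with x hx
  rw [hx]
  exact av_le hr f x

lemma AA_one (Ω : Set (En d)) [IsFiniteMeasure (mu Ω)] {r : ℝ} (hr : 0 < r) (f : Lp ℝ 2 (mu Ω)) :
    ‖AA Ω hr f‖ ≤ (vb d r) ^ (-(1 / 2 : ℝ)) * ∫ x, |f x| ∂(mu Ω) := by
  have hv := vb_pos (d := d) hr
  have hI : 0 ≤ ∫ x, |f x| ∂(mu Ω) := integral_nonneg fun x => abs_nonneg _
  by_cases h0 : ‖AA Ω hr f‖ = 0
  · rw [h0]
    positivity
  have hp : 0 < ‖AA Ω hr f‖ := lt_of_le_of_ne (norm_nonneg _) (Ne.symm h0)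
  have h1 : ‖AA Ω hr f‖ * ‖AA Ω hr f‖ = ⟪f, AA Ω hr (AA Ω hr f)⟫_ℝ := by
    rw [← AA_symm, real_inner_self_eq_norm_mul_norm]
  have h2 : ⟪f, AA Ω hr (AA Ω hr f)⟫_ℝ ≤
      ∫ x, |f x| * ((vb d r) ^ (-(1 / 2 : ℝ)) * ‖AA Ω hr f‖) ∂(mu Ω) := by
    rw [inner_eq]
    refine integral_mono_ae ?_ ((lp_int f).abs.mul_const _) ?_
    · exact (Lp.memLp f).integrable_mul (Lp.memLp (AA Ω hr (AA Ω hr f)))
    · filter_upwards [AA_bd Ω hr (AA Ω hr f)] with x hx
      calc f x * AA Ω hr (AA Ω hr f) x ≤ |f x * AA Ω hr (AA Ω hr f) x| := le_abs_self _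
        _ = |f x| * |AA Ω hr (AA Ω hr f) x| := abs_mul _ _
        _ ≤ _ := mul_le_mul_of_nonneg_left hx (abs_nonneg _)
  rw [integral_mul_const] at h2
  rw [← h1] at h2
  have h3 : ‖AA Ω hr f‖ * ‖AA Ω hr f‖ ≤
      ((vb d r) ^ (-(1 / 2 : ℝ)) * ∫ x, |f x| ∂(mu Ω)) * ‖AA Ω hr f‖ := by
    refine h2.trans (le_of_eq ?_)
    ring
  exact le_of_mul_le_mul_right h3 hp

/-- Cauchy-Schwarz on the ball -/
lemma cs_ball {r : ℝ} (hr : 0 < r) {g : En d → ℝ} (hg : Continuous g) :
    ((vb d r)⁻¹ * ∫ z in Metric.ball (0 : En d) r, g z) ^ 2 ≤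
      (vb d r)⁻¹ * ∫ z in Metric.ball (0 : En d) r, g z ^ 2 := by
  have hv := vb_pos (d := d) hr
  have hi : ∀ {h : En d → ℝ}, Continuous h → IntegrableOn h (Metric.ball (0 : En d) r) := by
    intro h hh
    exact (hh.continuousOn.integrableOn_compact (isCompact_closedBall (0 : En d) r)).mono_set
      Metric.ball_subset_closedBall
  set m := (vb d r)⁻¹ * ∫ z in Metric.ball (0 : En d) r, g z with hm
  have h1 : 0 ≤ ∫ z in Metric.ball (0 : En d) r, (g z - m) ^ 2 :=
    integral_nonneg fun z => sq_nonneg _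
  have h2 : ∫ z in Metric.ball (0 : En d) r, (g z - m) ^ 2 =
      (∫ z in Metric.ball (0 : En d) r, g z ^ 2) - 2 * m * (∫ z in Metric.ball (0 : En d) r, g z)
        + m ^ 2 * vb d r := by
    have e : ∀ z, (g z - m) ^ 2 = (g z ^ 2 - 2 * m * g z) + m ^ 2 := fun z => by ring
    simp_rw [e]
    rw [integral_add, integral_sub, integral_const_mul]
    · congr 1
      rw [setIntegral_const, smul_eq_mul, mul_comm]
      rfl
    · exact hi (hg.pow 2)
    · exact hi (hg.const_mul _)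
    · exact (hi (hg.pow 2)).sub (hi (hg.const_mul _))
    · exact hi continuous_const
  have h3 : ∫ z in Metric.ball (0 : En d) r, g z = vb d r * m := by
    rw [hm]
    field_simp
  rw [h2, h3] at h1
  have h4 : vb d r * m ^ 2 ≤ ∫ z in Metric.ball (0 : En d) r, g z ^ 2 := by nlinarith
  have h5 : m ^ 2 = (vb d r)⁻¹ * (vb d r * m ^ 2) := by field_simp
  rw [h5]
  exact mul_le_mul_of_nonneg_left h4 (inv_pos.2 hv).le

lemma av_tst {Ω : Set (En d)} {ψ : En d → ℝ} (h : Tst Ω ψ) (r : ℝ) (x : En d) :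
    av (mu Ω) r ψ x = (vb d r)⁻¹ * ∫ z in Metric.ball (0 : En d) r, ψ (x - z) := by
  unfold av mu
  congr 1
  rw [← integral_indicator measurableSet_ball,
    setIntegral_eq_integral_of_forall_compl_eq_zero]
  · rw [← integral_sub_left_eq_self _ volume x, ← integral_indicator measurableSet_ball]
    refine integral_congr_ae (Eventually.of_forall fun z => ?_)
    show (Metric.ball x r).indicator ψ (x - z) =
      (Metric.ball (0 : En d) r).indicator (fun z => ψ (x - z)) z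
    by_cases hz : ‖z‖ < r
    · rw [indicator_of_mem (show x - z ∈ Metric.ball x r by simpa using hz),
        indicator_of_mem (show z ∈ Metric.ball (0 : En d) r by simpa using hz)]
    · rw [indicator_of_notMem (show x - z ∉ Metric.ball x r by simpa using hz),
        indicator_of_notMem (show z ∉ Metric.ball (0 : En d) r by simpa using hz)]
  · intro y hy
    have h1 : ψ y = 0 := image_eq_zero_of_notMem_tsupport fun h2 => hy (h.2.2 h2)
    by_cases hz : y ∈ Metric.ball x r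
    · rw [indicator_of_mem hz, h1]
    · rw [indicator_of_notMem hz]

lemma grad_out {Ω : Set (En d)} {ψ : En d → ℝ} (h : Tst Ω ψ) {x : En d} (hx : x ∉ Ω) :
    gradient ψ x = 0 := by
  have h1 : x ∉ tsupport (fderiv ℝ ψ) := fun h2 => hx (h.2.2 (tsupport_fderiv_subset ℝ h2))
  unfold gradient
  rw [image_eq_zero_of_notMem_tsupport h1, map_zero]

lemma tst_bd (htrn : TrnStmt) {Ω : Set (En d)} {ψ : En d → ℝ} (h : Tst Ω ψ) {r : ℝ}
    (hr : 0 < r) :
    ∫⁻ x, ENNReal.ofReal ((ψ x - av (mu Ω) r ψ x) ^ 2) ∂(mu Ω) ≤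
      ENNReal.ofReal (r ^ 2 * ∫ x, ‖gradient ψ x‖ ^ 2) := by
  have hv := vb_pos (d := d) hr
  have hc := h.1.continuous
  have hi : ∀ {h : En d → ℝ}, Continuous h → IntegrableOn h (Metric.ball (0 : En d) r) := by
    intro h hh
    exact (hh.continuousOn.integrableOn_compact (isCompact_closedBall (0 : En d) r)).mono_set
      Metric.ball_subset_closedBall
  have hg : ∀ x, Continuous fun z : En d => ψ x - ψ (x - z) := fun x => by fun_prop
  -- pointwise
  have h1 : ∀ x, ENNReal.ofReal ((ψ x - av (mu Ω) r ψ x) ^ 2) ≤ ENNReal.ofReal (vb d r)⁻¹ *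
      ∫⁻ z in Metric.ball (0 : En d) r, ENNReal.ofReal ((ψ x - ψ (x - z)) ^ 2) := by
    intro x
    have e1 : ψ x - av (mu Ω) r ψ x =
        (vb d r)⁻¹ * ∫ z in Metric.ball (0 : En d) r, (ψ x - ψ (x - z)) := by
      rw [av_tst h, integral_sub (hi continuous_const) (hi (by fun_prop)), setIntegral_const,
        smul_eq_mul, mul_sub]
      congr 1
      have e2 : (volume : Measure (En d)).real (Metric.ball (0 : En d) r) = vb d r := rfl
      rw [e2]
      field_simp
    rw [e1]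
    refine (ENNReal.ofReal_le_ofReal (cs_ball hr (hg x))).trans ?_
    rw [ENNReal.ofReal_mul (inv_pos.2 hv).le]
    refine mul_le_mul_right (le_of_eq ?_) _
    refine ofReal_integral_eq_lintegral_ofReal (hi ((hg x).pow 2)) ?_
    exact Eventually.of_forall fun z => sq_nonneg _
  -- the integral for a translation
  have h2 : ∀ z ∈ Metric.ball (0 : En d) r, ∫⁻ x, ENNReal.ofReal ((ψ x - ψ (x - z)) ^ 2) ≤
      ENNReal.ofReal (r ^ 2 * ∫ x, ‖gradient ψ x‖ ^ 2) := by
    intro z hz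
    have hz' : ‖z‖ < r := by simpa using hz
    have hint : Integrable fun x => (ψ x - ψ (x - z)) ^ 2 := by
      have a1 : MemLp ψ 2 volume := hc.memLp_of_hasCompactSupport h.2.1
      have a2 : MemLp (fun x => ψ (x - z)) 2 volume :=
        a1.comp_measurePreserving (measurePreserving_sub_right volume z)
      exact (a1.sub a2).integrable_sq
    rw [← ofReal_integral_eq_lintegral_ofReal hint (Eventually.of_forall fun x => sq_nonneg _)]
    refine ENNReal.ofReal_le_ofReal ((htrn d ψ h.1 h.2.1 z).trans ?_)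
    refine mul_le_mul_of_nonneg_right ?_ (integral_nonneg fun x => sq_nonneg _)
    exact pow_le_pow_left₀ (norm_nonneg _) hz'.le 2
  calc ∫⁻ x, ENNReal.ofReal ((ψ x - av (mu Ω) r ψ x) ^ 2) ∂(mu Ω)
      ≤ ∫⁻ x, ENNReal.ofReal ((ψ x - av (mu Ω) r ψ x) ^ 2) :=
        lintegral_mono' Measure.restrict_le_self le_rfl
    _ ≤ ∫⁻ x, ENNReal.ofReal (vb d r)⁻¹ *
        ∫⁻ z in Metric.ball (0 : En d) r, ENNReal.ofReal ((ψ x - ψ (x - z)) ^ 2) :=
        lintegral_mono h1
    _ = ENNReal.ofReal (vb d r)⁻¹ * ∫⁻ x,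
        ∫⁻ z in Metric.ball (0 : En d) r, ENNReal.ofReal ((ψ x - ψ (x - z)) ^ 2) := by
        refine lintegral_const_mul' _ _ ENNReal.ofReal_ne_top
    _ = ENNReal.ofReal (vb d r)⁻¹ * ∫⁻ z in Metric.ball (0 : En d) r,
        ∫⁻ x, ENNReal.ofReal ((ψ x - ψ (x - z)) ^ 2) := by
        congr 1
        refine lintegral_lintegral_swap ?_
        refine Measurable.aemeasurable ?_
        exact (ENNReal.continuous_ofReal.comp (by fun_prop : Continuous fun p : En d × En d =>
          (ψ p.1 - ψ (p.1 - p.2)) ^ 2)).measurable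
    _ ≤ ENNReal.ofReal (vb d r)⁻¹ * ∫⁻ _ in Metric.ball (0 : En d) r,
        ENNReal.ofReal (r ^ 2 * ∫ x, ‖gradient ψ x‖ ^ 2) := by
        refine mul_le_mul_right ?_ _
        exact setLIntegral_mono' measurableSet_ball h2
    _ = ENNReal.ofReal (r ^ 2 * ∫ x, ‖gradient ψ x‖ ^ 2) := by
        rw [setLIntegral_const, vol_ball, mul_comm (ENNReal.ofReal (r ^ 2 * _)), ← mul_assoc,
          ← ENNReal.ofReal_mul (inv_pos.2 hv).le, inv_mul_cancel₀ hv.ne', ENNReal.ofReal_one,
          one_mul]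

/-- **AVO** -/
theorem avo (htrn : TrnStmt) : AvoStmt := by
  intro d Ω ι hd hΩ hι
  have : IsFiniteMeasure (mu Ω) := H91.mu_fin hΩ
  refine ⟨cst d, cst_pos, fun r hr => ⟨AA Ω hr, ?_, ?_, ?_⟩⟩
  · intro f
    rw [← vb_rpow hd hr]
    exact AA_bd Ω hr f
  · intro f
    rw [← vb_rpow hd hr]
    exact AA_one Ω hr f
  · have hcl : IsClosed {G : VV Ω | ‖ι G - AA Ω hr (ι G)‖ ≤ r * ‖G‖} :=
      isClosed_le (by fun_prop) (by fun_prop)
    intro G
    refine (H91.ge_dense Ω).induction_on (p := fun G => ‖ι G - AA Ω hr (ι G)‖ ≤ r * ‖G‖) G hcl ?_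
    intro ψ
    set G := H91.ge Ω ψ with hG
    have hGψ : ((G : VV Ω) : Lp (En d) 2 (mu Ω)) =ᵐ[mu Ω] gradient ψ.1 := H91.gr_ae Ω ψ
    have h1 : ι G =ᵐ[mu Ω] ψ.1 := hι ψ.1 ψ.2 G hGψ
    have h2 : AA Ω hr (ι G) =ᵐ[mu Ω] av (mu Ω) r ψ.1 :=
      (AA_ae Ω hr (ι G)).trans (Eventually.of_forall fun x => av_congr _ _ h1 x)
    -- the squares of the norms
    have h3 : ‖ι G - AA Ω hr (ι G)‖ ^ 2 = ∫ x, (ψ.1 x - av (mu Ω) r ψ.1 x) ^ 2 ∂(mu Ω) := by
      rw [← real_inner_self_eq_norm_sq, inner_eq]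
      refine integral_congr_ae ?_
      filter_upwards [Lp.coeFn_sub (ι G) (AA Ω hr (ι G)), h1, h2] with x h4 h5 h6
      rw [h4, Pi.sub_apply, h5, h6, sq]
    have h4 : ‖G‖ ^ 2 = ∫ x, ‖gradient ψ.1 x‖ ^ 2 := by
      have e1 : ‖G‖ ^ 2 = ∫ x, ‖gradient ψ.1 x‖ ^ 2 ∂(mu Ω) := by
        have e2 : ‖G‖ = ‖((G : VV Ω) : Lp (En d) 2 (mu Ω))‖ := rfl
        rw [e2, ← real_inner_self_eq_norm_sq, L2.inner_def]
        refine integral_congr_ae ?_
        filter_upwards [hGψ] with x hx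
        rw [hx, real_inner_self_eq_norm_sq]
      rw [e1]
      unfold mu
      rw [setIntegral_eq_integral_of_forall_compl_eq_zero]
      intro x hx
      rw [grad_out ψ.2 hx, norm_zero]
      norm_num
    have h5 : ∫ x, (ψ.1 x - av (mu Ω) r ψ.1 x) ^ 2 ∂(mu Ω) ≤ r ^ 2 * ‖G‖ ^ 2 := by
      rw [h4]
      have hint : Integrable (fun x => (ψ.1 x - av (mu Ω) r ψ.1 x) ^ 2) (mu Ω) := by
        have a1 : MemLp (fun x => (ι G - AA Ω hr (ι G) : Lp ℝ 2 (mu Ω)) x) 2 (mu Ω) :=
          Lp.memLp _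
        refine a1.integrable_sq.congr ?_
        filter_upwards [Lp.coeFn_sub (ι G) (AA Ω hr (ι G)), h1, h2] with x h4 h5 h6
        rw [h4, Pi.sub_apply, h5, h6]
      have h6 := tst_bd htrn ψ.2 hr
      rw [← ofReal_integral_eq_lintegral_ofReal hint
        (Eventually.of_forall fun x => sq_nonneg _)] at h6
      refine (ENNReal.ofReal_le_ofReal_iff ?_).1 h6
      exact mul_nonneg (sq_nonneg _) (integral_nonneg fun x => sq_nonneg _)
    rw [← h3, ← mul_pow] at h5
    exact (pow_le_pow_iff_left₀ (norm_nonneg _) (by positivity) two_ne_zero).1 h5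

end

end Pool.Agent.BEL.H90
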